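import Pool.Agent.Lib.H81.Gold.Main

/-!
# Goldberg's conjecture on isoperimetric polyhedra is false

For every large `F` there is a number `f` of faces with `F ≤ f ≤ 2 F` such that no medial
polyhedron with `f` faces minimises `S³ / V²` among all polyhedra with `f` faces.  In particular
the negated form of the question holds, for arbitrarily large `f`.
-/

set_option autoImplicit false

namespace Pool.Agent.Results.MP_4b2a3d_gt.MedialNotOptimal

open Goldberg

theorem result :
    ∃ F₁ : ℕ, ∀ F : ℕ, F₁ ≤ F → ∃ f : ℕ, F ≤ f ∧ f ≤ 2 * F ∧ 4 ≤ f ∧ f ≠ 11 ∧ f ≠ 13 ∧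
      ∀ P : Set Space, IsMedial f P →
        ∃ Q : Set Space, IsPolyhedron Q ∧ (faces Q 2).ncard = f ∧ isoQuot Q < isoQuot P :=
  goldberg_false

end Pool.Agent.Results.MP_4b2a3d_gt.MedialNotOptimal
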